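import Pool.Agent.Lib_MP_a95293_at.Cor

set_option autoImplicit false

/-! MP_a95293_nt: for almost all `R` the admissible tuples with `rad (x₁⋯xₙ) ∣ R` are bounded, for
`n = 3` without a bound on their size, for the other `n` up to `exp (exp (log r / (log log r)³))`. -/

namespace Pool.Agent.Results.MP_a95293_nt.AlmostAllRadicals

/-- `rad m` is the product of the distinct primes dividing the integer `m` (and `rad (±1) = 1`). -/
def rad (m : ℤ) : ℕ := ∏ p ∈ m.natAbs.primeFactors, p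

/-- An `n`-tuple of integers is admissible if its gcd is `1`, its sum is `0`, and no nonempty
proper sub-sum vanishes. -/
def Admissible {n : ℕ} (x : Fin n → ℤ) : Prop :=
  Finset.univ.gcd x = 1 ∧ ∑ i, x i = 0 ∧
    ∀ S : Finset (Fin n), S.Nonempty → S ≠ Finset.univ → ∑ i ∈ S, x i ≠ 0

/-- `Counted x` holds for every tuple of length `3`, and for a tuple of another length it says that
all `|xⱼ|` are at most `exp (exp (log r / (log log r) ^ 3))`, where `r = rad (x₁⋯xₙ)`. -/
def Counted {n : ℕ} (x : Fin n → ℤ) : Prop :=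
  n = 3 ∨ ∀ j, ((|x j| : ℤ) : ℝ) ≤ Real.exp (Real.exp
    (Real.log (rad (∏ i, x i)) / Real.log (Real.log (rad (∏ i, x i))) ^ 3))

/-- For every `n` and every `ε > 0` there is `B` such that for every `X` at most `ε X` of the
positive integers `R ≤ X` have a counted admissible `n`-tuple with `rad (x₁⋯xₙ) ∣ R` and an entry
larger than `B`; and for every `M > 0` the set of the `R` with a counted admissible `n`-tuple with
`rad (x₁⋯xₙ) ∣ R` and an entry larger than `R ^ M` has natural density `0`. -/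
theorem result (n : ℕ) :
    (∀ ε : ℝ, 0 < ε → ∃ B : ℕ, ∀ X : ℕ,
      ({R : ℕ | 1 ≤ R ∧ R ≤ X ∧ ∃ x : Fin n → ℤ, Admissible x ∧ rad (∏ i, x i) ∣ R ∧ Counted x ∧
        ∃ j, (B : ℤ) < |x j|}.ncard : ℝ) ≤ ε * X) ∧
    ∀ M : ℝ, 0 < M → Filter.Tendsto (fun X : ℕ =>
      ({R : ℕ | 1 ≤ R ∧ R ≤ X ∧ ∃ x : Fin n → ℤ, Admissible x ∧ rad (∏ i, x i) ∣ R ∧ Counted x ∧
        ∃ j, (R : ℝ) ^ M < (|x j| : ℤ)}.ncard : ℝ) / X) Filter.atTop (nhds 0) :=
  ⟨Pool.MP_a95293_nt.AT.few n, Pool.MP_a95293_nt.AT.dens n⟩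

end Pool.Agent.Results.MP_a95293_nt.AlmostAllRadicals
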