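import Mathlib

set_option autoImplicit false

namespace Pool.Agent.Results.MP_a95293_nt.SuperlinearExponent

/-- `rad m` is the product of the distinct primes dividing the integer `m` (and `rad (±1) = 1`). -/
def rad (m : ℤ) : ℕ := ∏ p ∈ m.natAbs.primeFactors, p

/-- An `n`-tuple of integers is admissible if its gcd is `1`, its sum is `0`, and no nonempty
proper sub-sum vanishes. -/
def Admissible {n : ℕ} (x : Fin n → ℤ) : Prop :=
  Finset.univ.gcd x = 1 ∧ ∑ i, x i = 0 ∧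
    ∀ S : Finset (Fin n), S.Nonempty → S ≠ Finset.univ → ∑ i ∈ S, x i ≠ 0

/-- `2 ^ (2 * 3 ^ i) = 1 + 3 ^ (i + 1) * u` with `u` prime to `3`. -/
lemma two_pow_order (i : ℕ) : ∃ u : ℕ, 2 ^ (2 * 3 ^ i) = 1 + 3 ^ (i + 1) * u ∧ u % 3 ≠ 0 := by
  induction i with
  | zero => exact ⟨1, by norm_num, by norm_num⟩
  | succ i ih =>
    obtain ⟨u, hu, h3⟩ := ih
    refine ⟨u + 3 ^ (i + 1) * u ^ 2 + 3 ^ (2 * i + 1) * u ^ 3, ?_, ?_⟩
    · have : 2 ^ (2 * 3 ^ (i + 1)) = (2 ^ (2 * 3 ^ i)) ^ 3 := by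
        rw [← pow_mul]; congr 1; ring
      rw [this, hu]; ring
    · have e1 : 3 ^ (i + 1) * u ^ 2 = 3 * (3 ^ i * u ^ 2) := by ring
      have e2 : 3 ^ (2 * i + 1) * u ^ 3 = 3 * (3 ^ (2 * i) * u ^ 3) := by ring
      rw [e1, e2]; omega

/-- `2` is a primitive root modulo every power of `3`. -/
lemma exists_two_pow (i : ℕ) (X : ℤ) (hX : ¬ (3 : ℤ) ∣ X) :
    ∃ a : ℕ, a < 2 * 3 ^ i ∧ (3 : ℤ) ^ (i + 1) ∣ X - 2 ^ a := by
  induction i with
  | zero =>
    have h : X % 3 = 1 ∨ X % 3 = 2 := by omega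
    rcases h with h | h
    · exact ⟨0, by norm_num, by norm_num; omega⟩
    · exact ⟨1, by norm_num, by norm_num; omega⟩
  | succ i ih =>
    obtain ⟨a, ha, m, hm⟩ := ih
    obtain ⟨u, hu, h3⟩ := two_pow_order i
    have hu' : (2 : ℤ) ^ (2 * 3 ^ i) = 1 + 3 ^ (i + 1) * u := by exact_mod_cast hu
    -- choose `t` with `m ≡ t * 2 ^ a * u` modulo `3`
    have hw : ¬ (3 : ℤ) ∣ 2 ^ a * u := by
      intro h
      rcases Int.prime_three.dvd_or_dvd h with h | h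
      · have := Int.prime_three.dvd_of_dvd_pow h
        omega
      · omega
    obtain ⟨t, ht, htm⟩ : ∃ t : ℕ, t < 3 ∧ (3 : ℤ) ∣ m - t * (2 ^ a * u) := by
      generalize (2 : ℤ) ^ a * u = w at hw
      have h1 : w % 3 = 1 ∨ w % 3 = 2 := by omega
      have h2 : m % 3 = 0 ∨ m % 3 = 1 ∨ m % 3 = 2 := by omega
      rcases h1 with h1 | h1 <;> rcases h2 with h2 | h2 | h2
      · exact ⟨0, by norm_num, by push_cast; omega⟩
      · exact ⟨1, by norm_num, by push_cast; omega⟩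
      · exact ⟨2, by norm_num, by push_cast; omega⟩
      · exact ⟨0, by norm_num, by push_cast; omega⟩
      · exact ⟨2, by norm_num, by push_cast; omega⟩
      · exact ⟨1, by norm_num, by push_cast; omega⟩
    refine ⟨a + 2 * 3 ^ i * t, ?_, ?_⟩
    · have : 2 * 3 ^ i * t ≤ 2 * 3 ^ i * 2 := Nat.mul_le_mul_left _ (by omega)
      have e : 2 * 3 ^ (i + 1) = 2 * 3 ^ i * 2 + 2 * 3 ^ i := by ring
      omega
    · -- `(1 + 3 ^ (i+1) u) ^ t ≡ 1 + t * 3 ^ (i+1) u` modulo `3 ^ (i+2)`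
      have hpow : (3 : ℤ) ^ (i + 2) ∣ ((2 : ℤ) ^ (2 * 3 ^ i)) ^ t - (1 + t * (3 ^ (i + 1) * u)) := by
        rw [hu']
        interval_cases t
        · simp
        · simp
        · refine ⟨3 ^ i * u ^ 2, ?_⟩
          push_cast; ring
      obtain ⟨c, hc⟩ := hpow
      obtain ⟨d, hd⟩ := htm
      have hc' : ((2 : ℤ) ^ (2 * 3 ^ i)) ^ t = (1 + t * (3 ^ (i + 1) * u)) + 3 ^ (i + 2) * c := by
        linarith
      have hm' : X = 2 ^ a + 3 ^ (i + 1) * m := by linarith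
      have hd' : m = t * (2 ^ a * u) + 3 * d := by linarith
      refine ⟨d - 2 ^ a * c, ?_⟩
      rw [pow_add, pow_mul (2 : ℤ) (2 * 3 ^ i) t, hc', hm', hd']
      ring

/-- A multiset `s` of `r` positive integers with no prime factors besides `2` and `3`, with sum `X`. -/
def Rep (X r : ℕ) (s : Multiset ℕ) : Prop :=
  Multiset.card s = r ∧ (∀ u ∈ s, ∃ a b : ℕ, u = 2 ^ a * 3 ^ b) ∧ s.sum = X

lemma Rep.of_eq {X Y r : ℕ} {s : Multiset ℕ} (h : Rep X r s) (e : Y = X) : Rep Y r s := e ▸ h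

lemma Rep.mul {X r : ℕ} {s : Multiset ℕ} (h : Rep X r s) (a b : ℕ) :
    Rep (2 ^ a * 3 ^ b * X) r (s.map (fun u => 2 ^ a * 3 ^ b * u)) := by
  obtain ⟨h1, h2, h3⟩ := h
  refine ⟨by simpa using h1, ?_, ?_⟩
  · intro u hu
    obtain ⟨v, hv, rfl⟩ := Multiset.mem_map.1 hu
    obtain ⟨c, d, rfl⟩ := h2 v hv
    exact ⟨a + c, b + d, by rw [pow_add, pow_add]; ring⟩
  · rw [Multiset.sum_map_mul_left, Multiset.map_id', h3]

lemma Rep.cons {X r : ℕ} {s : Multiset ℕ} (h : Rep X r s) (a b : ℕ) :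
    Rep (2 ^ a * 3 ^ b + X) (r + 1) ((2 ^ a * 3 ^ b) ::ₘ s) := by
  obtain ⟨h1, h2, h3⟩ := h
  refine ⟨by simp [h1], ?_, by simp [h3]⟩
  intro u hu
  rcases Multiset.mem_cons.1 hu with rfl | hu
  · exact ⟨a, b, rfl⟩
  · exact h2 u hu

lemma rep_binary (K : ℕ) : ∀ X : ℕ, X < 2 ^ K → ∃ r ≤ K, ∃ s, Rep X r s := by
  induction K with
  | zero =>
    intro X hX
    have : X = 0 := by simpa using hX
    subst this
    exact ⟨0, le_rfl, 0, by simp [Rep]⟩
  | succ K ih =>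
    intro X hX
    obtain ⟨r, hr, s, hs⟩ := ih (X / 2) (by rw [pow_succ] at hX; omega)
    have h2 := hs.mul 1 0
    rcases Nat.mod_two_eq_zero_or_one X with h | h
    · exact ⟨r, by omega, _, h2.of_eq (by omega)⟩
    · exact ⟨r + 1, by omega, _, (h2.cons 0 0).of_eq (by omega)⟩

/-- The 3-adic greedy expansion. -/
lemma rep_greedy (i : ℕ) : ∀ k X : ℕ, X < 2 ^ (2 * 3 ^ i) * (3 ^ (i + 1)) ^ k →
    ∃ r ≤ k + 2 * 3 ^ i, ∃ s, Rep X r s := by
  intro k
  induction k with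
  | zero =>
    intro X hX
    obtain ⟨r, hr, s, hs⟩ := rep_binary (2 * 3 ^ i) X (by simpa using hX)
    exact ⟨r, by omega, s, hs⟩
  | succ k ih =>
    intro X hX
    rcases Nat.eq_zero_or_pos X with rfl | hpos
    · exact ⟨0, by omega, 0, by simp [Rep]⟩
    obtain ⟨t, X', h3, hX'⟩ := Nat.exists_eq_pow_mul_and_not_dvd hpos.ne' 3 (by norm_num)
    have hle : X' ≤ X := by
      rw [hX']; exact Nat.le_mul_of_pos_left _ (by positivity)
    by_cases hbig : X' < 2 ^ (2 * 3 ^ i)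
    · obtain ⟨r, hr, s, hs⟩ := rep_binary (2 * 3 ^ i) X' hbig
      exact ⟨r, by omega, _, (hs.mul 0 t).of_eq (by rw [hX']; ring)⟩
    · have hbig' : 2 ^ (2 * 3 ^ i) ≤ X' := not_lt.1 hbig
      obtain ⟨a, ha, Y, hY⟩ := exists_two_pow i (X' : ℤ) (by exact_mod_cast h3)
      have hlt : 2 ^ a < X' := lt_of_lt_of_le (Nat.pow_lt_pow_right (by norm_num) ha) hbig'
      have hYnn : 0 ≤ Y := by
        by_contra hneg
        have h1 : (3 : ℤ) ^ (i + 1) * Y < 0 := mul_neg_of_pos_of_neg (by positivity) (by omega)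
        have h2 : ((2 ^ a : ℕ) : ℤ) < (X' : ℤ) := by exact_mod_cast hlt
        push_cast at h2
        linarith
      obtain ⟨Z, rfl⟩ := Int.eq_ofNat_of_zero_le hYnn
      have hZ : X' = 2 ^ a + 3 ^ (i + 1) * Z := by
        have : (X' : ℤ) = 2 ^ a + 3 ^ (i + 1) * (Z : ℤ) := by linarith
        exact_mod_cast this
      have hZlt : Z < 2 ^ (2 * 3 ^ i) * (3 ^ (i + 1)) ^ k := by
        have h1 : 3 ^ (i + 1) * Z < 3 ^ (i + 1) * (2 ^ (2 * 3 ^ i) * (3 ^ (i + 1)) ^ k) := by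
          calc 3 ^ (i + 1) * Z ≤ X' := by rw [hZ]; exact Nat.le_add_left _ _
            _ ≤ X := hle
            _ < 2 ^ (2 * 3 ^ i) * (3 ^ (i + 1)) ^ (k + 1) := hX
            _ = 3 ^ (i + 1) * (2 ^ (2 * 3 ^ i) * (3 ^ (i + 1)) ^ k) := by rw [pow_succ]; ring
        exact lt_of_mul_lt_mul_left h1 (by positivity)
      obtain ⟨r, hr, s, hs⟩ := ih Z hZlt
      exact ⟨r + 1, by omega, _, (((hs.mul 0 (i + 1)).cons a 0).mul 0 t).of_eq
        (by rw [hX', hZ]; ring)⟩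

/-- A representation in which some term is divisible by `3` can be refined to have one more
term, as long as the number of terms is less than a third of the sum. -/
lemma rep_split {X r : ℕ} (h : ∃ s, Rep X r s ∧ ∃ v ∈ s, 3 ∣ v) (hr : 3 * r < X) :
    ∃ s, Rep X (r + 1) s ∧ ∃ v ∈ s, 3 ∣ v := by
  obtain ⟨s, ⟨h1, h2, h3⟩, v, hv, hv3⟩ := h
  -- some term is at least `4`
  obtain ⟨u, hu, hu4⟩ : ∃ u ∈ s, 4 ≤ u := by
    by_contra hcon
    push Not at hcon
    have : s.sum ≤ Multiset.card s • 3 := Multiset.sum_le_card_nsmul s 3 (fun x hx => by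
      have := hcon x hx; omega)
    rw [h1, h3, smul_eq_mul] at this
    omega
  obtain ⟨t, rfl⟩ := Multiset.exists_cons_of_mem hu
  obtain ⟨a, b, hab⟩ := h2 u hu
  simp only [Multiset.card_cons, Multiset.sum_cons] at h1 h3
  have ht : ∀ w ∈ t, ∃ a b : ℕ, w = 2 ^ a * 3 ^ b := fun w hw => h2 w (Multiset.mem_cons_of_mem hw)
  rcases Nat.eq_zero_or_pos a with rfl | ha
  · -- `u = 3 ^ b` with `b ≥ 2`
    obtain ⟨c, rfl⟩ : ∃ c, b = c + 2 := by
      refine ⟨b - 2, ?_⟩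
      rcases b with _ | _ | b
      · simp at hab; omega
      · simp at hab; omega
      · omega
    refine ⟨(3 ^ (c + 1)) ::ₘ (2 * 3 ^ (c + 1)) ::ₘ t, ⟨?_, ?_, ?_⟩, ?_⟩
    · simp; omega
    · intro w hw
      rcases Multiset.mem_cons.1 hw with rfl | hw
      · exact ⟨0, c + 1, by simp⟩
      · rcases Multiset.mem_cons.1 hw with rfl | hw
        · exact ⟨1, c + 1, by simp⟩
        · exact ht w hw
    · simp only [Multiset.sum_cons]
      rw [← h3, hab]; ring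
    · exact ⟨3 ^ (c + 1), by simp, dvd_pow_self 3 (by omega)⟩
  · obtain ⟨c, rfl⟩ : ∃ c, a = c + 1 := ⟨a - 1, by omega⟩
    refine ⟨(2 ^ c * 3 ^ b) ::ₘ (2 ^ c * 3 ^ b) ::ₘ t, ⟨?_, ?_, ?_⟩, ?_⟩
    · simp; omega
    · intro w hw
      rcases Multiset.mem_cons.1 hw with rfl | hw
      · exact ⟨c, b, rfl⟩
      · rcases Multiset.mem_cons.1 hw with rfl | hw
        · exact ⟨c, b, rfl⟩
        · exact ht w hw
    · simp only [Multiset.sum_cons]
      rw [← h3, hab]; ring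
    · rcases Multiset.mem_cons.1 hv with rfl | hv
      · refine ⟨2 ^ c * 3 ^ b, by simp, ?_⟩
        rw [hab] at hv3
        have : 3 ∣ 2 * (2 ^ c * 3 ^ b) := by convert hv3 using 1; ring
        exact (Nat.Coprime.dvd_mul_left (by norm_num)).1 this
      · exact ⟨v, by simp [hv], hv3⟩

lemma rep_split_many {X r : ℕ} (h : ∃ s, Rep X r s ∧ ∃ v ∈ s, 3 ∣ v) (n : ℕ) (hrn : r ≤ n)
    (hn : 3 * n ≤ X) : ∃ s, Rep X n s ∧ ∃ v ∈ s, 3 ∣ v := by
  induction n, hrn using Nat.le_induction with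
  | base => exact h
  | succ n hrn ih => exact rep_split (ih (by omega)) (by omega)

lemma admissible_cons {n : ℕ} (g : Fin n → ℕ) (hg : ∀ i, 0 < g i) :
    Admissible (Fin.cons (-(1 + ∑ i, (g i : ℤ))) (Fin.cons 1 (fun i => (g i : ℤ))) :
      Fin (n + 2) → ℤ) := by
  set x : Fin (n + 2) → ℤ :=
    Fin.cons (-(1 + ∑ i, (g i : ℤ))) (Fin.cons 1 (fun i => (g i : ℤ))) with hx
  have hsum : ∑ i, x i = 0 := by
    rw [Fin.sum_univ_succ, Fin.sum_univ_succ]
    simp [hx]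
  have hpos : ∀ i, i ≠ 0 → 0 < x i := by
    intro i hi
    obtain ⟨i, rfl⟩ := Fin.exists_succ_eq.2 hi
    rcases Fin.eq_zero_or_eq_succ i with rfl | ⟨i, rfl⟩
    · simp [hx]
    · simp [hx, hg i]
  have hposS : ∀ S : Finset (Fin (n + 2)), S.Nonempty → 0 ∉ S → 0 < ∑ i ∈ S, x i := by
    intro S hS h0
    exact Finset.sum_pos (fun i hi => hpos i (fun h => h0 (h ▸ hi))) hS
  refine ⟨?_, hsum, ?_⟩
  · have h1 : Finset.univ.gcd x ∣ x 1 := Finset.gcd_dvd (Finset.mem_univ _)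
    have hx1 : x 1 = 1 := rfl
    rw [hx1] at h1
    have h2 : normalize (Finset.univ.gcd x) = Finset.univ.gcd x := Finset.normalize_gcd
    rw [← h2]
    exact normalize_eq_one.2 (isUnit_of_dvd_one h1)
  · intro S hS hne
    by_cases h0 : (0 : Fin (n + 2)) ∈ S
    · have hc : (Sᶜ).Nonempty := by
        rw [Finset.nonempty_iff_ne_empty]
        intro h
        exact hne (by simpa using h)
      have h1 := hposS Sᶜ hc (by simpa using h0)
      have h2 := Finset.sum_add_sum_compl S x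
      rw [hsum] at h2
      intro h3
      rw [h3, zero_add] at h2
      exact h1.ne' h2
    · exact (hposS S hS h0).ne'

lemma primeFactors_eq (N : ℕ) (hN : 1 ≤ N) (s : Multiset ℕ)
    (h : ∀ u ∈ s, ∃ a b : ℕ, u = 2 ^ a * 3 ^ b) (h3 : ∃ v ∈ s, 3 ∣ v) :
    (2 ^ N * s.prod).primeFactors = {2, 3} := by
  have hne : 2 ^ N * s.prod ≠ 0 := by
    refine mul_ne_zero (by positivity) ?_
    intro h0
    obtain ⟨a, b, hab⟩ := h 0 (Multiset.prod_eq_zero_iff.1 h0)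
    have : 0 < 2 ^ a * 3 ^ b := by positivity
    omega
  ext p
  simp only [Nat.mem_primeFactors, Finset.mem_insert, Finset.mem_singleton]
  constructor
  · rintro ⟨hp, hd, -⟩
    rcases hp.prime.dvd_or_dvd hd with hd | hd
    · left
      exact (Nat.prime_dvd_prime_iff_eq hp Nat.prime_two).1 (hp.prime.dvd_of_dvd_pow hd)
    · obtain ⟨u, hu, hpu⟩ := hp.prime.exists_mem_multiset_dvd hd
      obtain ⟨a, b, rfl⟩ := h u hu
      rcases hp.prime.dvd_or_dvd hpu with hd | hd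
      · left
        exact (Nat.prime_dvd_prime_iff_eq hp Nat.prime_two).1 (hp.prime.dvd_of_dvd_pow hd)
      · right
        exact (Nat.prime_dvd_prime_iff_eq hp Nat.prime_three).1 (hp.prime.dvd_of_dvd_pow hd)
  · rintro (rfl | rfl)
    · exact ⟨Nat.prime_two, dvd_mul_of_dvd_left (dvd_pow_self 2 (by omega)) _, hne⟩
    · obtain ⟨v, hv, hd⟩ := h3
      exact ⟨Nat.prime_three, dvd_mul_of_dvd_right (hd.trans (Multiset.dvd_prod hv)) _, hne⟩

/-- The combinatorial core: a tuple of length `n` supported on the primes `2` and `3`. -/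
lemma exists_tuple (i m k n : ℕ) (hm : 1 ≤ m)
    (hk : 2 ^ (2 * 3 ^ i * m) ≤ 2 ^ (2 * 3 ^ i) * (3 ^ (i + 1)) ^ (k + 1))
    (hn : k + 2 * 3 ^ i ≤ n) (hn3 : 3 * n + 1 ≤ 2 ^ (2 * 3 ^ i * m)) :
    ∃ x : Fin (n + 2) → ℤ, Admissible x ∧ rad (∏ i, x i) = 6 ∧
      x 0 = -2 ^ (2 * 3 ^ i * m) := by
  obtain ⟨Y, hY⟩ : ∃ Y : ℕ, 2 ^ (2 * 3 ^ i * m) = 1 + 3 ^ (i + 1) * Y := by
    obtain ⟨u, hu, -⟩ := two_pow_order i
    have h1 : 3 ^ (i + 1) * u ∣ (2 ^ (2 * 3 ^ i)) ^ m - 1 ^ m := by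
      have := Nat.sub_dvd_pow_sub_pow (2 ^ (2 * 3 ^ i)) 1 m
      rwa [hu, Nat.add_sub_cancel_left, ← hu] at this
    obtain ⟨Z, hZ⟩ := h1
    refine ⟨u * Z, ?_⟩
    have h2 : 1 ≤ (2 ^ (2 * 3 ^ i)) ^ m := Nat.one_le_pow _ _ (by positivity)
    rw [one_pow] at hZ
    rw [pow_mul, ← mul_assoc, ← hZ]
    omega
  have hYpos : 0 < Y := by
    rcases Nat.eq_zero_or_pos Y with rfl | h
    · exfalso
      have : 2 ^ 1 ≤ 2 ^ (2 * 3 ^ i * m) := Nat.pow_le_pow_right (by norm_num) (by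
        have : 0 < 2 * 3 ^ i * m := by positivity
        omega)
      omega
    · exact h
  have hYlt : Y < 2 ^ (2 * 3 ^ i) * (3 ^ (i + 1)) ^ k := by
    have h1 : 3 ^ (i + 1) * Y < 3 ^ (i + 1) * (2 ^ (2 * 3 ^ i) * (3 ^ (i + 1)) ^ k) := by
      calc 3 ^ (i + 1) * Y < 1 + 3 ^ (i + 1) * Y := by omega
        _ = 2 ^ (2 * 3 ^ i * m) := hY.symm
        _ ≤ 2 ^ (2 * 3 ^ i) * (3 ^ (i + 1)) ^ (k + 1) := hk
        _ = 3 ^ (i + 1) * (2 ^ (2 * 3 ^ i) * (3 ^ (i + 1)) ^ k) := by rw [pow_succ]; ring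
    exact lt_of_mul_lt_mul_left h1 (by positivity)
  obtain ⟨r, hr, s, hs⟩ := rep_greedy i k Y hYlt
  have hs' := (hs.mul 0 (i + 1)).of_eq (show 3 ^ (i + 1) * Y = _ by ring)
  have h3 : ∃ v ∈ s.map (fun u => 2 ^ 0 * 3 ^ (i + 1) * u), 3 ∣ v := by
    obtain ⟨w, hw⟩ : ∃ w, w ∈ s := by
      apply Multiset.exists_mem_of_ne_zero
      rintro rfl
      have := hs.2.2
      simp at this
      omega
    refine ⟨_, Multiset.mem_map_of_mem _ hw, ?_⟩
    exact Dvd.dvd.mul_right (Dvd.dvd.mul_left (dvd_pow_self 3 (by omega)) _) _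
  obtain ⟨t, ⟨ht1, ht2, ht3⟩, ht4⟩ := rep_split_many ⟨_, hs', h3⟩ n (by omega) (by omega)
  -- pass to a list
  obtain ⟨l, rfl⟩ : ∃ l : List ℕ, (l : Multiset ℕ) = t := ⟨t.toList, by simp⟩
  have hlen : l.length = n := by simpa using ht1
  subst hlen
  have hsum : ∑ j : Fin l.length, ((l.get j : ℕ) : ℤ) = 2 ^ (2 * 3 ^ i * m) - 1 := by
    have h1 : ∑ j : Fin l.length, l.get j = l.sum := by
      simp
    have h2 : l.sum = 3 ^ (i + 1) * Y := by simpa using ht3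
    have h3 : ((2 : ℤ) ^ (2 * 3 ^ i * m)) = 1 + 3 ^ (i + 1) * Y := by exact_mod_cast hY
    rw [← Nat.cast_sum, h1, h2, h3]
    push_cast
    ring
  have hg : ∀ j : Fin l.length, 0 < l.get j := by
    intro j
    obtain ⟨a, b, hab⟩ := ht2 (l.get j) (by simp)
    rw [hab]; positivity
  have hval : -(1 + ∑ j : Fin l.length, ((l.get j : ℕ) : ℤ)) = -2 ^ (2 * 3 ^ i * m) := by
    rw [hsum]; ring
  refine ⟨_, admissible_cons l.get hg, ?_, ?_⟩
  · rw [Fin.prod_univ_succ, Fin.prod_univ_succ]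
    simp only [Fin.cons_zero, Fin.cons_succ]
    rw [hval]
    have h1 : (-2 ^ (2 * 3 ^ i * m) * (1 * ∏ j : Fin l.length, ((l.get j : ℕ) : ℤ))).natAbs
        = 2 ^ (2 * 3 ^ i * m) * (l : Multiset ℕ).prod := by
      have h2 : ∏ j : Fin l.length, ((l.get j : ℕ) : ℤ) = ((l : Multiset ℕ).prod : ℕ) := by
        rw [← Nat.cast_prod]
        simp
      rw [h2, one_mul, Int.natAbs_mul, Int.natAbs_neg, Int.natAbs_pow, Int.natAbs_natCast]
      rfl
    unfold rad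
    rw [h1, primeFactors_eq _ (by
      have : 0 < 2 * 3 ^ i * m := by positivity
      omega) _ ht2 ht4]
    rfl
  · rw [Fin.cons_zero]
    exact hval

/-- For every `ε > 0` and every sufficiently large `n` there is an admissible `n`-tuple `x` whose
radical is `6` and which has an entry exceeding `6 ^ ((1 / log 6 - ε) n log n)`. -/
theorem result (ε : ℝ) (hε : 0 < ε) :
    ∃ n₀ : ℕ, ∀ n : ℕ, n₀ ≤ n → ∃ x : Fin n → ℤ, Admissible x ∧ rad (∏ i, x i) = 6 ∧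
      ∃ j, (rad (∏ i, x i) : ℝ) ^ ((1 / Real.log 6 - ε) * (n * Real.log n)) <
        ((x j).natAbs : ℝ) := by
  have hlog6 : 0 < Real.log 6 := Real.log_pos (by norm_num)
  set δ : ℝ := min (ε * Real.log 6 / 4) (1 / 8) with hδ
  have hδ0 : 0 < δ := lt_min (by positivity) (by norm_num)
  have hδ1 : δ ≤ 1 / 8 := min_le_right _ _
  have hδ2 : 4 * δ ≤ ε * Real.log 6 := by
    have := min_le_left (ε * Real.log 6 / 4) (1 / 8 : ℝ)
    rw [← hδ] at this
    linarith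
  have h1 : ∀ᶠ n : ℕ in Filter.atTop, 9 / δ ≤ (n : ℝ) :=
    tendsto_natCast_atTop_atTop.eventually_ge_atTop _
  have h2 : ∀ᶠ n : ℕ in Filter.atTop, Real.log (3 / δ) / δ ≤ Real.log (n : ℝ) :=
    (Real.tendsto_log_atTop.comp tendsto_natCast_atTop_atTop).eventually_ge_atTop _
  obtain ⟨n₀, hn₀⟩ := Filter.eventually_atTop.1 (h1.and h2)
  refine ⟨n₀, fun n hn => ?_⟩
  obtain ⟨hn1, hn2⟩ := hn₀ n hn
  have hδn : 9 ≤ δ * n := by
    rw [div_le_iff₀ hδ0] at hn1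
    linarith
  have hn72 : (72 : ℝ) ≤ n := by nlinarith
  have hn72' : 72 ≤ n := by exact_mod_cast hn72
  -- choose the power of `3`
  set F : ℕ := ⌊δ * n⌋₊ with hF
  have hF9 : 9 ≤ F := Nat.le_floor (by exact_mod_cast hδn)
  obtain ⟨i, hi⟩ : ∃ i, Nat.log 3 F = i + 1 := by
    have : 1 ≤ Nat.log 3 F := by
      rw [Nat.le_log_iff_pow_le (by norm_num) (by omega)]
      omega
    exact ⟨Nat.log 3 F - 1, by omega⟩
  have hT1 : 3 ^ (i + 1) ≤ F := by
    rw [← hi]; exact Nat.pow_log_le_self 3 (by omega)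
  have hT2 : F < 3 ^ (i + 1 + 1) := by
    rw [← hi]; exact Nat.lt_pow_succ_log_self (by norm_num) F
  have hT9 : 9 ≤ 3 ^ (i + 1) := by
    have h2 : 2 ≤ Nat.log 3 F := by
      rw [Nat.le_log_iff_pow_le (by norm_num) (by omega)]
      omega
    calc 9 = 3 ^ 2 := by norm_num
      _ ≤ 3 ^ (i + 1) := Nat.pow_le_pow_right (by norm_num) (by omega)
  set T : ℕ := 3 ^ (i + 1) with hT
  have hφT : 2 * 3 ^ i ≤ T := by
    rw [hT, pow_succ]; omega
  have hTn : (T : ℝ) ≤ δ * n := by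
    have h3 : (F : ℝ) ≤ δ * n := Nat.floor_le (by positivity)
    have h4 : (T : ℝ) ≤ F := by exact_mod_cast hT1
    linarith
  have hT3 : δ * n < 3 * T := by
    have h3 : δ * n < F + 1 := Nat.lt_floor_add_one _
    have h4 : (F : ℝ) + 1 ≤ 3 * T := by
      have : F + 1 ≤ 3 * T := by rw [hT]; rw [pow_succ] at hT2; omega
      exact_mod_cast this
    linarith
  have hTn8 : (T : ℝ) ≤ n / 8 := by nlinarith
  have hTn8' : 8 * T ≤ n := by
    have : 8 * (T : ℝ) ≤ n := by linarith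
    exact_mod_cast this
  -- the length
  obtain ⟨N, rfl⟩ : ∃ N, n = N + 2 := ⟨n - 2, by omega⟩
  obtain ⟨k, hk⟩ : ∃ k, N = k + 2 * 3 ^ i := ⟨N - 2 * 3 ^ i, by omega⟩
  -- the exponent of `2`
  set B : ℕ := 2 ^ (2 * 3 ^ i) with hB
  have hB2 : 1 < B := Nat.one_lt_two_pow (by positivity)
  set m : ℕ := Nat.log B (B * T ^ (k + 1)) with hm
  have hTpos : 0 < T := by omega
  have hBT : B * T ^ (k + 1) ≠ 0 := by positivity
  have hm1 : B ^ m ≤ B * T ^ (k + 1) := Nat.pow_log_le_self B hBT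
  have hm2 : B * T ^ (k + 1) < B ^ (m + 1) := Nat.lt_pow_succ_log_self hB2 _
  have hm3 : T ^ (k + 1) < B ^ m := by
    rw [pow_succ, mul_comm] at hm2
    exact lt_of_mul_lt_mul_right hm2 (by omega)
  have hmpos : 1 ≤ m := by
    rw [hm, Nat.le_log_iff_pow_le hB2 hBT, pow_one]
    exact Nat.le_mul_of_pos_right _ (by positivity)
  have hBm : B ^ m = 2 ^ (2 * 3 ^ i * m) := by rw [hB, ← pow_mul]
  have hbig : 3 * N + 1 ≤ B ^ m := by
    have h3 : ∀ q : ℕ, 8 * q + 1 ≤ 9 ^ q := by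
      intro q
      induction q with
      | zero => simp
      | succ q ih => rw [pow_succ]; omega
    have h4 : 9 ^ (k + 1) ≤ T ^ (k + 1) := Nat.pow_le_pow_left hT9 _
    have h5 := h3 (k + 1)
    omega
  obtain ⟨x, hx1, hx2, hx3⟩ := exists_tuple i m k N hmpos (by rw [← hBm]; exact hm1) (by omega)
    (by rw [← hBm]; exact hbig)
  refine ⟨x, hx1, hx2, 0, ?_⟩
  have hx0 : ((x 0).natAbs : ℝ) = (B : ℝ) ^ m := by
    rw [hx3, Int.natAbs_neg, Int.natAbs_pow]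
    have : ((2 : ℤ).natAbs ^ (2 * 3 ^ i * m)) = B ^ m := by rw [hBm]; rfl
    rw [this]
    push_cast
    rfl
  rw [hx0, hx2]
  have hTm : (T : ℝ) ^ (k + 1) < (B : ℝ) ^ m := by exact_mod_cast hm3
  refine lt_of_le_of_lt ?_ hTm
  have hTR : (0 : ℝ) < T := by exact_mod_cast hTpos
  have hnR : (0 : ℝ) < ((N + 2 : ℕ) : ℝ) := by positivity
  rw [← Real.log_le_log_iff (by positivity) (by positivity), Real.log_rpow (by norm_num),
    Real.log_pow]
  -- lower bounds for the two factors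
  set n : ℝ := ((N + 2 : ℕ) : ℝ) with hn
  have hL : (1 - δ) * Real.log n ≤ Real.log T := by
    have h3 : Real.log (δ * n / 3) ≤ Real.log T := by
      apply Real.log_le_log (by positivity)
      linarith
    have h4 : Real.log (δ * n / 3) = Real.log n - Real.log (3 / δ) := by
      rw [← Real.log_div (by positivity) (by positivity)]
      congr 1
      field_simp
    rw [div_le_iff₀ hδ0] at hn2
    nlinarith
  have hK : (1 - 2 * δ) * n ≤ ((k + 1 : ℕ) : ℝ) := by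
    have h3 : ((k + 1 : ℕ) : ℝ) = n - 1 - (2 * 3 ^ i : ℕ) := by
      rw [hn, hk]; push_cast; ring
    have h4 : ((2 * 3 ^ i : ℕ) : ℝ) ≤ T := by exact_mod_cast hφT
    rw [h3]
    nlinarith
  have hlogn : 0 < Real.log n := Real.log_pos (by linarith)
  have hmain : (1 - 2 * δ) * n * ((1 - δ) * Real.log n) ≤ ((k + 1 : ℕ) : ℝ) * Real.log T := by
    apply mul_le_mul hK hL _ (by positivity)
    apply mul_nonneg (by linarith) hlogn.le
  have hlhs : (1 / Real.log 6 - ε) * (n * Real.log n) * Real.log ((6 : ℕ) : ℝ) =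
      (1 - ε * Real.log 6) * (n * Real.log n) := by
    push_cast
    field_simp
  rw [hlhs]
  refine le_trans ?_ hmain
  have hnl : 0 < n * Real.log n := by positivity
  nlinarith [mul_nonneg (show 0 ≤ ε * Real.log 6 - 4 * δ by linarith) hnl.le,
    mul_nonneg (mul_nonneg hδ0.le hδ0.le) hnl.le, mul_nonneg hδ0.le hnl.le]

end Pool.Agent.Results.MP_a95293_nt.SuperlinearExponent
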